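import Mathlib

set_option autoImplicit false

/-! A closed subgroup of a (Hausdorff, abelian) topological `k_ℝ`-group which is not a `k_ℝ`-space:
in a product of uncountably many discrete groups sits a nondiscrete inverse limit in which
`G_δ`-sets are open. -/

namespace Pool.Agent.Results.MP_ebea7e_gt.ClosedSubgroupNotKR

open Topology Set Filter

/-- `k_ℝ`-spaces: real functions which are continuous on compact sets are continuous -/
def IsKR (X : Type) [TopologicalSpace X] : Prop :=
  ∀ f : X → ℝ, (∀ K : Set X, IsCompact K → ContinuousOn f K) → Continuous f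

section Product

variable {I : Type} {D : I → Type} [∀ i, AddCommGroup (D i)] [∀ i, TopologicalSpace (D i)]
  [∀ i, DiscreteTopology (D i)]

open Classical in
/-- truncation to a finite set of coordinates -/
noncomputable def trunc (E : Finset I) (y : ∀ i, D i) : ∀ i, D i :=
  fun i => if i ∈ E then y i else 0

lemma trunc_of_mem {E : Finset I} {y : ∀ i, D i} {i : I} (h : i ∈ E) : trunc E y i = y i :=
  if_pos h

lemma trunc_of_notMem {E : Finset I} {y : ∀ i, D i} {i : I} (h : i ∉ E) : trunc E y i = 0 :=
  if_neg h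

/-- truncations approximate the value of a `k`-continuous function -/
lemma exists_trunc {f : (∀ i, D i) → ℝ}
    (hf : ∀ K : Set (∀ i, D i), IsCompact K → ContinuousOn f K) (y : ∀ i, D i) {ε : ℝ}
    (hε : 0 < ε) : ∃ E : Finset I, |f (trunc E y) - f y| < ε := by
  classical
  let K : Set (∀ i, D i) := Set.pi univ fun i => ({0, y i} : Set (D i))
  have hK : IsCompact K := isCompact_univ_pi fun i => (toFinite _).isCompact
  have hyK : y ∈ K := fun i _ => Or.inr rfl
  have hc := hf K hK y hyK
  rw [ContinuousWithinAt, Metric.tendsto_nhds] at hc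
  have h1 := hc ε hε
  rw [eventually_nhdsWithin_iff, nhds_pi, Filter.Eventually, Filter.mem_pi] at h1
  obtain ⟨E, hE, t, ht, htW⟩ := h1
  refine ⟨hE.toFinset, ?_⟩
  have h2 : trunc hE.toFinset y ∈ E.pi t := by
    intro i hi
    rw [trunc_of_mem (by simpa using hi)]
    exact mem_of_mem_nhds (ht i)
  have h3 : trunc hE.toFinset y ∈ K := by
    intro i _
    by_cases hi : i ∈ hE.toFinset
    · rw [trunc_of_mem hi]; exact Or.inr rfl
    · rw [trunc_of_notMem hi]; exact Or.inl rfl
  have h4 := htW h2 h3
  rwa [Real.dist_eq] at h4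

/-- a `k`-continuous function on a product of discrete groups is continuous at zero -/
lemma continuousAt_zero {f : (∀ i, D i) → ℝ}
    (hf : ∀ K : Set (∀ i, D i), IsCompact K → ContinuousOn f K) : ContinuousAt f 0 := by
  classical
  by_contra hcon
  rw [Metric.continuousAt_iff'] at hcon
  push Not at hcon
  obtain ⟨ε, hε, hbad⟩ := hcon
  -- finitely supported bad points outside of any finite set
  have key : ∀ F : Finset I, ∃ E : Finset I, ∃ z : ∀ i, D i, Disjoint E F ∧
      (∀ i, i ∉ E → z i = 0) ∧ ε / 2 ≤ |f z - f 0| := by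
    intro F
    have hU : {y : ∀ i, D i | ∀ i ∈ F, y i = 0} ∈ 𝓝 (0 : ∀ i, D i) := by
      have : {y : ∀ i, D i | ∀ i ∈ F, y i = 0} = Set.pi (F : Set I) (fun i => {0}) := by
        ext y; simp [Set.mem_pi]
      rw [this]
      exact (isOpen_set_pi F.finite_toSet fun i _ => isOpen_discrete _).mem_nhds
        (fun i _ => rfl)
    have h1 : ∃ y ∈ {y : ∀ i, D i | ∀ i ∈ F, y i = 0}, ε ≤ dist (f y) (f 0) := by
      by_contra h
      push Not at h
      exact hbad (Filter.mem_of_superset hU fun y hy => not_le.2 (h y hy))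
    obtain ⟨y, hy, hyε⟩ := h1
    obtain ⟨E, hE⟩ := exists_trunc hf y (half_pos hε)
    refine ⟨E \ F, trunc E y, Finset.sdiff_disjoint, fun i hi => ?_, ?_⟩
    · by_cases hiE : i ∈ E
      · rw [trunc_of_mem hiE]
        apply hy i
        by_contra hiF
        exact hi (Finset.mem_sdiff.2 ⟨hiE, hiF⟩)
      · exact trunc_of_notMem hiE
    · rw [Real.dist_eq] at hyε
      have := abs_sub_le (f y) (f (trunc E y)) (f 0)
      rw [abs_sub_comm (f y) (f (trunc E y))] at this
      linarith
  choose E z hdisj hsupp hval using key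
  -- iterate
  let F : ℕ → Finset I := fun n => Nat.rec ∅ (fun _ F => F ∪ E F) n
  have hF : ∀ n, F (n + 1) = F n ∪ E (F n) := fun n => rfl
  have hmono : Monotone F := monotone_nat_of_le_succ fun n => by
    rw [hF]; exact Finset.subset_union_left
  let u : ℕ → (∀ i, D i) := fun n => z (F n)
  have hu : Tendsto u atTop (𝓝 0) := by
    rw [tendsto_pi_nhds]
    intro i
    have : ∀ᶠ n in atTop, u n i = 0 := by
      by_cases h : ∃ m, i ∈ E (F m)
      · obtain ⟨m, hm⟩ := h
        refine eventually_atTop.2 ⟨m + 1, fun n hn => hsupp _ i fun hi => ?_⟩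
        have h1 : i ∈ F (m + 1) := by
          rw [hF]; exact Finset.mem_union_right _ hm
        have h2 : i ∈ F n := hmono hn h1
        exact (Finset.disjoint_left.1 (hdisj (F n))) hi h2
      · push Not at h
        exact Eventually.of_forall fun n => hsupp _ i (h n)
    exact tendsto_const_nhds.congr' (this.mono fun n hn => hn.symm)
  have hK : IsCompact (insert 0 (range u)) := hu.isCompact_insert_range
  have hc := hf _ hK 0 (mem_insert _ _)
  have h1 : Tendsto (fun n => f (u n)) atTop (𝓝 (f 0)) := by
    refine hc.tendsto.comp ?_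
    exact tendsto_nhdsWithin_iff.2 ⟨hu, Eventually.of_forall fun n => Or.inr ⟨n, rfl⟩⟩
  obtain ⟨n, hn⟩ := ((Metric.tendsto_nhds.1 h1) (ε / 2) (half_pos hε)).exists
  rw [Real.dist_eq] at hn
  exact absurd hn (not_lt.2 (hval (F n)))

/-- products of discrete groups are `k_ℝ`-spaces -/
theorem isKR_pi : IsKR (∀ i, D i) := by
  intro f hf
  rw [continuous_iff_continuousAt]
  intro x
  have h1 : ContinuousAt (fun y => f (y + x)) 0 := by
    apply continuousAt_zero
    intro K hK
    have h2 : IsCompact ((fun y => y + x) '' K) := hK.image (by fun_prop)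
    exact (hf _ h2).comp (by fun_prop) (mapsTo_image _ _)
  have h3 : f = (fun y => f (y + x)) ∘ (fun y => y - x) := by
    funext y; simp
  rw [h3]
  refine ContinuousAt.comp ?_ (by fun_prop)
  simpa using h1

end Product

/-- the index set `ω₁` -/
abbrev W : Type := (Cardinal.aleph 1).ord.ToType

lemma exists_bound (u : ℕ → W) : ∃ b : W, ∀ n, u n < b := by
  by_contra hcon
  push Not at hcon
  have h1 : (univ : Set W) ⊆ ⋃ n, Iic (u n) := fun b _ => by
    obtain ⟨n, hn⟩ := hcon b
    exact mem_iUnion.2 ⟨n, hn⟩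
  have h2 : (⋃ n, Iic (u n)).Countable := by
    refine countable_iUnion fun n => ?_
    have h3 : Iic (u n) = insert (u n) (Iio (u n)) := by
      ext x
      simp [le_iff_eq_or_lt]
    rw [h3]
    exact ((Cardinal.countable_iff_lt_aleph_one _).2
      (by simpa using Cardinal.mk_Iio_lt (u n))).insert _
  have h4 := Cardinal.le_aleph0_iff_set_countable.2 (h2.mono h1)
  rw [Cardinal.mk_univ, Cardinal.mk_ord_toType] at h4
  exact absurd h4 (not_le.2 Cardinal.aleph0_lt_aleph_one)

instance : Nonempty W := by
  obtain ⟨b, _⟩ : ∃ b : W, True := by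
    by_contra h
    push Not at h
    have : IsEmpty W := ⟨fun b => h b⟩
    have h1 : Cardinal.mk W = 0 := Cardinal.mk_eq_zero W
    rw [Cardinal.mk_ord_toType] at h1
    exact (Cardinal.aleph_pos 1).ne' h1
  exact ⟨b⟩

lemma exists_gt' (a : W) : ∃ b, a < b := by
  obtain ⟨b, hb⟩ := exists_bound fun _ => a
  exact ⟨b, hb 0⟩

/-- the discrete factors: functions on the initial segments -/
def D (a : W) : Type := Iio a → ZMod 2

noncomputable instance (a : W) : AddCommGroup (D a) :=
  inferInstanceAs (AddCommGroup (Iio a → ZMod 2))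

instance (a : W) : TopologicalSpace (D a) := ⊥

instance (a : W) : DiscreteTopology (D a) := ⟨rfl⟩

/-- restrictions of a function -/
def res (x : W → ZMod 2) : ∀ a, D a := fun _ c => x c

/-- the closed subgroup: the families of restrictions of functions -/
noncomputable def H : AddSubgroup (∀ a, D a) where
  carrier := {y | ∀ a b (h : a ≤ b) (c : Iio a), y b ⟨c, lt_of_lt_of_le c.2 h⟩ = y a c}
  zero_mem' := fun _ _ _ _ => rfl
  add_mem' := by
    intro x y hx hy a b h c
    change x b _ + y b _ = x a c + y a c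
    rw [hx a b h c, hy a b h c]
  neg_mem' := by
    intro x hx a b h c
    change -(x b _) = -(x a c)
    rw [hx a b h c]

lemma isClosed_H : IsClosed (H : Set (∀ a, D a)) := by
  have : (H : Set (∀ a, D a)) = ⋂ (a : W) (b : W) (h : a ≤ b) (c : Iio a),
      {y | (y b ⟨c, lt_of_lt_of_le c.2 h⟩ : ZMod 2) = y a c} := by
    ext y
    simp only [mem_iInter]
    rfl
  rw [this]
  refine isClosed_iInter fun a => isClosed_iInter fun b => isClosed_iInter fun h =>
    isClosed_iInter fun c => ?_
  have h1 : Continuous fun y : (∀ a, D a) => (y b ⟨c, lt_of_lt_of_le c.2 h⟩ : ZMod 2) := by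
    exact (continuous_of_discreteTopology
      (f := fun z : D b => (z ⟨c, lt_of_lt_of_le c.2 h⟩ : ZMod 2))).comp (continuous_apply b)
  have h2 : Continuous fun y : (∀ a, D a) => (y a c : ZMod 2) := by
    exact (continuous_of_discreteTopology (f := fun z : D a => (z c : ZMod 2))).comp
      (continuous_apply a)
  exact isClosed_eq h1 h2

/-- agreement up to `a` determines a neighbourhood in `H` -/
lemma nhds_H (x : H) (a : W) : {y : H | (y : ∀ a, D a) a = (x : ∀ a, D a) a} ∈ 𝓝 x := by
  have h1 : Continuous fun y : H => (y : ∀ a, D a) a :=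
    (continuous_apply a).comp continuous_subtype_val
  exact ((isOpen_discrete {(x : ∀ a, D a) a}).preimage h1).mem_nhds rfl

lemma eq_of_le {x y : H} {a b : W} (h : a ≤ b)
    (hxy : (x : ∀ a, D a) b = (y : ∀ a, D a) b) : (x : ∀ a, D a) a = (y : ∀ a, D a) a := by
  funext c
  have h1 := x.2 a b h c
  have h2 := y.2 a b h c
  rw [← h1, ← h2, hxy]

/-- compact subsets of `H` are finite -/
lemma finite_of_isCompact {K : Set H} (hK : IsCompact K) : K.Finite := by
  by_contra hinf
  have hinf : K.Infinite := hinf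
  let u : ℕ ↪ K := hinf.natEmbedding
  obtain ⟨x, hxK, hx⟩ := hK.exists_mapClusterPt (u := fun n : ℕ => ((u n : K) : H)) (f := atTop)
    (by
      rw [Filter.le_principal_iff, Filter.mem_map]
      exact Filter.mem_of_superset Filter.univ_mem (fun (n : ℕ) _ => (u n).2))
  -- a coordinate which separates `x` from all the other members of the sequence
  have h1 : ∀ n, ∃ a, (u n : H) ≠ x → ((u n : H) : ∀ a, D a) a ≠ (x : ∀ a, D a) a := by
    intro n
    by_cases h : (u n : H) = x
    · exact ⟨Classical.arbitrary W, fun h' => absurd h h'⟩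
    · by_contra hcon
      push Not at hcon
      apply h
      apply Subtype.ext
      funext a
      exact (hcon a).2
  choose a ha using h1
  obtain ⟨b, hb⟩ := exists_bound a
  have h2 := hx.frequently (nhds_H x b)
  have h3 : ∀ n, ((u n : H) : ∀ a, D a) b = (x : ∀ a, D a) b → (u n : H) = x := by
    intro n hn
    by_contra hne
    exact ha n hne (eq_of_le (hb n).le hn)
  obtain ⟨n, hn⟩ := h2.exists
  obtain ⟨m, hm, hnm⟩ := (frequently_atTop.1 h2) (n + 1)
  have h4 : u n = u m := Subtype.ext ((h3 n hn).trans (h3 m hnm).symm)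
  have := u.injective h4
  omega

open Classical in
/-- a unit vector as an element of the subgroup -/
noncomputable def unit (b : W) : H := ⟨res (Pi.single b 1), fun _ _ _ _ => rfl⟩

lemma unit_ne (b : W) : unit b ≠ 0 := by
  intro h
  obtain ⟨c, hc⟩ := exists_gt' b
  have h1 : ((unit b : H) : ∀ a, D a) c = (0 : ∀ a, D a) c := by rw [h]; rfl
  have h2 : (Pi.single b (1 : ZMod 2) : W → ZMod 2) b = 0 := congrFun h1 ⟨b, hc⟩
  rw [Pi.single_eq_same] at h2
  exact one_ne_zero h2

lemma unit_apply {a b : W} (h : a ≤ b) : ((unit b : H) : ∀ a, D a) a = 0 := by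
  funext c
  change (Pi.single b (1 : ZMod 2) : W → ZMod 2) c = 0
  exact Pi.single_eq_of_ne (ne_of_lt (lt_of_lt_of_le c.2 h)) _

lemma zero_not_isolated : ({0} : Set H) ∉ 𝓝 (0 : H) := by
  intro h
  rw [nhds_subtype_eq_comap, mem_comap] at h
  obtain ⟨V, hV, hVU⟩ := h
  rw [ZeroMemClass.coe_zero, nhds_pi, Filter.mem_pi] at hV
  obtain ⟨I, hI, t, ht, htV⟩ := hV
  obtain ⟨b, hb⟩ : ∃ b : W, ∀ a ∈ I, a ≤ b := by
    obtain ⟨b, hb⟩ := hI.bddAbove
    exact ⟨b, fun a ha => hb ha⟩
  have h1 : (unit b : H) ∈ (Subtype.val : H → ∀ a, D a) ⁻¹' V := by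
    apply htV
    intro a ha
    rw [unit_apply (hb a ha)]
    exact mem_of_mem_nhds (ht a)
  exact unit_ne b (hVU h1)

open Classical in
lemma not_isKR_H : ¬ IsKR H := by
  intro h
  have hc := h (fun x => if x = 0 then 1 else 0) (fun K hK => by
    have hfin := finite_of_isCompact hK
    have : DiscreteTopology K := by
      have : Finite K := hfin
      infer_instance
    rw [continuousOn_iff_continuous_restrict]
    exact continuous_of_discreteTopology)
  have h1 : (fun x : H => if x = 0 then (1 : ℝ) else 0) ⁻¹' (Ioi (1 / 2)) ∈ 𝓝 (0 : H) := by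
    apply hc.continuousAt.preimage_mem_nhds
    apply (isOpen_Ioi).mem_nhds
    simp only [if_true, mem_Ioi]
    norm_num
  apply zero_not_isolated
  refine Filter.mem_of_superset h1 fun x hx => ?_
  by_contra hne
  have hne' : x ≠ 0 := hne
  simp only [mem_preimage, if_neg hne', mem_Ioi] at hx
  norm_num at hx

/-- **MP_ebea7e_gt, Q1 (disproved).** There is a Hausdorff abelian topological group which is a
`k_ℝ`-space with a closed subgroup which is not a `k_ℝ`-space. -/
theorem result :
    ∃ (G : Type) (_ : AddCommGroup G) (_ : TopologicalSpace G),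
      IsTopologicalAddGroup G ∧ T2Space G ∧ IsKR G ∧
      ∃ H : AddSubgroup G, IsClosed (H : Set G) ∧ ¬ IsKR H :=
  ⟨∀ a, D a, inferInstance, inferInstance, inferInstance, inferInstance, isKR_pi, H, isClosed_H,
    not_isKR_H⟩

end Pool.Agent.Results.MP_ebea7e_gt.ClosedSubgroupNotKR
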